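import Mathlib

set_option autoImplicit false

namespace Pool.Agent.Results.MP_4bc86c_co.NoRainbow

/-- `c` restricted to the edges of `K_n` is a proper edge-colouring: two distinct edges `xy`, `xz`
sharing the vertex `x` get different colours. -/
def IsProperEdgeColouring (n : ℕ) (c : Sym2 (Fin n) → ℕ) : Prop :=
  ∀ x y z : Fin n, x ≠ y → x ≠ z → y ≠ z → c s(x, y) ≠ c s(x, z)

/-- The set of colours that `c` uses on the edges of `K_n`. -/
def coloursUsed (n : ℕ) (c : Sym2 (Fin n) → ℕ) : Finset ℕ :=
  (⊤ : SimpleGraph (Fin n)).edgeFinset.image c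

/-- `c` is an optimal edge-colouring of `K_n`: it is proper and uses the minimum possible number
of colours. -/
def IsOptimal (n : ℕ) (c : Sym2 (Fin n) → ℕ) : Prop :=
  IsProperEdgeColouring n c ∧
    ∀ c' : Sym2 (Fin n) → ℕ, IsProperEdgeColouring n c' →
      (coloursUsed n c).card ≤ (coloursUsed n c').card

lemma mem_used {n : ℕ} {c : Sym2 (Fin n) → ℕ} {a : ℕ} :
    a ∈ coloursUsed n c ↔ ∃ x y : Fin n, x ≠ y ∧ c s(x, y) = a := by
  unfold coloursUsed
  rw [Finset.mem_image]
  constructor
  · rintro ⟨e, he, rfl⟩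
    induction e using Sym2.ind with
    | _ x y =>
      refine ⟨x, y, ?_, rfl⟩
      simpa using he
  · rintro ⟨x, y, hxy, rfl⟩
    exact ⟨s(x, y), by simpa using hxy, rfl⟩

/-- lower bound: degree -/
lemma lower_even (n : ℕ) (hn : 1 ≤ n) (c : Sym2 (Fin n) → ℕ) (hc : IsProperEdgeColouring n c) :
    n - 1 ≤ (coloursUsed n c).card := by
  have v : Fin n := ⟨0, hn⟩
  have h1 : ((Finset.univ.erase v).image (fun w => c s(v, w))).card = n - 1 := by
    rw [Finset.card_image_of_injOn]
    · rw [Finset.card_erase_of_mem (Finset.mem_univ _), Finset.card_univ, Fintype.card_fin]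
    · intro a ha b hb hab
      simp only [Finset.coe_erase, Finset.coe_univ, Set.mem_sdiff, Set.mem_univ,
        Set.mem_singleton_iff, true_and] at ha hb
      by_contra hne
      exact hc v a b (Ne.symm ha) (Ne.symm hb) hne hab
  rw [← h1]
  apply Finset.card_le_card
  intro a ha
  rw [Finset.mem_image] at ha
  obtain ⟨w, hw, rfl⟩ := ha
  rw [mem_used]
  exact ⟨v, w, fun h => by simp [h] at hw, rfl⟩

open Classical in
/-- lower bound for odd `n` -/
lemma lower_odd (n : ℕ) (hn : 2 ≤ n) (hodd : Odd n) (c : Sym2 (Fin n) → ℕ)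
    (hc : IsProperEdgeColouring n c) : n ≤ (coloursUsed n c).card := by
  set U := coloursUsed n c with hU
  let R : Fin n → ℕ → Prop := fun v a => ∃ w, v ≠ w ∧ c s(v, w) = a
  -- each colour class touches at most n - 1 vertices
  have h1 : ∀ a ∈ U, (Finset.univ.filter (fun v => R v a)).card ≤ n - 1 := by
    intro a _
    set S := Finset.univ.filter (fun v => R v a) with hS
    have hp : ∀ v ∈ S, ∃ w, v ≠ w ∧ c s(v, w) = a := by
      intro v hv
      simpa [hS, R] using hv
    choose! p hp1 hp2 using hp
    have hpS : ∀ v ∈ S, p v ∈ S := by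
      intro v hv
      simp only [hS, Finset.mem_filter, Finset.mem_univ, true_and, R]
      exact ⟨v, (hp1 v hv).symm, by rw [Sym2.eq_swap]; exact hp2 v hv⟩
    have hpp : ∀ v ∈ S, p (p v) = v := by
      intro v hv
      by_contra hne
      have h3 := hp2 v hv
      have h4 := hp2 (p v) (hpS v hv)
      refine hc (p v) v (p (p v)) (hp1 v hv).symm (hp1 (p v) (hpS v hv)) (Ne.symm hne) ?_
      rw [h4, Sym2.eq_swap, h3]
    have hsum : ∑ v ∈ S, (1 : ZMod 2) = 0 := by
      apply Finset.sum_involution (fun v _ => p v)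
      · intro v hv; decide
      · intro v hv _; exact (hp1 v hv).symm
      · intro v hv; exact hpS v hv
      · intro v hv; exact hpp v hv
    have heven : Even S.card := by
      rw [← ZMod.natCast_eq_zero_iff_even]
      simpa using hsum
    have hle : S.card ≤ n := by
      calc S.card ≤ (Finset.univ : Finset (Fin n)).card := Finset.card_le_card (Finset.subset_univ _)
        _ = n := by simp
    rcases Nat.lt_or_ge S.card n with h | h
    · omega
    · have : S.card = n := by omega
      rw [this] at heven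
      exact absurd heven (Nat.not_even_iff_odd.2 hodd)
  have h2 : ∀ v : Fin n, n - 1 ≤ (U.filter (fun a => R v a)).card := by
    intro v
    have h1 : ((Finset.univ.erase v).image (fun w => c s(v, w))).card = n - 1 := by
      rw [Finset.card_image_of_injOn]
      · rw [Finset.card_erase_of_mem (Finset.mem_univ _), Finset.card_univ, Fintype.card_fin]
      · intro a ha b hb hab
        simp only [Finset.coe_erase, Finset.coe_univ, Set.mem_sdiff, Set.mem_univ,
          Set.mem_singleton_iff, true_and] at ha hb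
        by_contra hne
        exact hc v a b (Ne.symm ha) (Ne.symm hb) hne hab
    rw [← h1]
    apply Finset.card_le_card
    intro a ha
    rw [Finset.mem_image] at ha
    obtain ⟨w, hw, rfl⟩ := ha
    have hvw : v ≠ w := fun h => by simp [h] at hw
    rw [Finset.mem_filter, hU, mem_used]
    exact ⟨⟨v, w, hvw, rfl⟩, w, hvw, rfl⟩
  have h3 : ∑ v : Fin n, (U.filter (fun a => R v a)).card =
      ∑ a ∈ U, (Finset.univ.filter (fun v => R v a)).card := by
    simp only [Finset.card_filter]
    rw [Finset.sum_comm]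
  have h4 : n * (n - 1) ≤ U.card * (n - 1) := by
    calc n * (n - 1) = ∑ v : Fin n, (n - 1) := by simp
      _ ≤ ∑ v : Fin n, (U.filter (fun a => R v a)).card := Finset.sum_le_sum (fun v _ => h2 v)
      _ = ∑ a ∈ U, (Finset.univ.filter (fun v => R v a)).card := h3
      _ ≤ ∑ a ∈ U, (n - 1) := Finset.sum_le_sum h1
      _ = U.card * (n - 1) := by simp
  exact Nat.le_of_mul_le_mul_right h4 (by omega)

section xor

variable {n k : ℕ} (φ : Fin n → (Fin k → ZMod 2))

/-- the colour of an edge as a vector -/
def g : Sym2 (Fin n) → (Fin k → ZMod 2) :=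
  Sym2.lift ⟨fun x y => φ x + φ y, fun _ _ => add_comm _ _⟩

lemma g_mk (x y : Fin n) : g φ s(x, y) = φ x + φ y := rfl

lemma add_self_vec (a : Fin k → ZMod 2) : a + a = 0 := by
  ext i
  exact CharTwo.add_self_eq_zero _

lemma walk_sum {u v : Fin n} (w : (⊤ : SimpleGraph (Fin n)).Walk u v) :
    (w.edges.map (g φ)).sum = φ u + φ v := by
  induction w with
  | nil => simp [add_self_vec]
  | @cons a b c h p ih =>
    rw [SimpleGraph.Walk.edges_cons, List.map_cons, List.sum_cons, ih, g_mk]
    calc φ a + φ b + (φ b + φ c) = φ a + (φ b + φ b) + φ c := by abel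
      _ = φ a + φ c := by rw [add_self_vec, add_zero]

lemma sum_univ_vec (hk : 2 ≤ k) : ∑ a : Fin k → ZMod 2, a = 0 := by
  ext i
  rw [Finset.sum_apply, Pi.zero_apply]
  obtain ⟨j, hj⟩ : ∃ j : Fin k, j ≠ i := by
    have : Nontrivial (Fin k) := Fin.nontrivial_iff_two_le.2 hk
    exact exists_ne i
  apply Finset.sum_involution (fun (a : Fin k → ZMod 2) _ => Function.update a j (a j + 1))
  · intro a _
    rw [Function.update_of_ne hj.symm]
    exact CharTwo.add_self_eq_zero _
  · intro a _ _ h
    have := congrFun h j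
    rw [Function.update_self] at this
    have h1 : (1 : ZMod 2) = 0 := by
      calc (1 : ZMod 2) = (a j + 1) - a j := by ring
        _ = 0 := by rw [this, sub_self]
    exact absurd h1 (by decide)
  · intro a _; exact Finset.mem_univ _
  · intro a _
    simp only [Function.update_self, Function.update_idem]
    have : a j + 1 + 1 = a j := by
      rw [add_assoc, CharTwo.add_self_eq_zero, add_zero]
    rw [this, Function.update_eq_self]

/-- a rainbow closed walk has length different from `2^k-2` and `2^k-3` -/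
lemma no_rainbow (hk : 3 ≤ k) (hφ : Function.Injective φ) (v : Fin n)
    (w : (⊤ : SimpleGraph (Fin n)).Walk v v)
    (hnd : (w.edges.map (g φ)).Nodup) : w.length ≠ 2 ^ k - 2 ∧ w.length ≠ 2 ^ k - 3 := by
  classical
  set S : Finset (Fin k → ZMod 2) := (w.edges.map (g φ)).toFinset with hS
  have hcard : S.card = w.length := by
    rw [hS, List.toFinset_card_of_nodup hnd, List.length_map, SimpleGraph.Walk.length_edges]
  have hsum : ∑ a ∈ S, a = 0 := by
    rw [hS, List.sum_toFinset _ hnd, List.map_id', walk_sum, add_self_vec]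
  have hzero : (0 : Fin k → ZMod 2) ∉ S := by
    intro h
    rw [hS, List.mem_toFinset, List.mem_map] at h
    obtain ⟨e, he, he0⟩ := h
    have he' := SimpleGraph.Walk.edges_subset_edgeSet w he
    induction e using Sym2.ind with
    | _ x y =>
      rw [g_mk] at he0
      have hxy : x ≠ y := by simpa using he'
      apply hxy
      apply hφ
      calc φ x = φ x + (φ y + φ y) := by rw [add_self_vec, add_zero]
        _ = (φ x + φ y) + φ y := by abel
        _ = φ y := by rw [he0, zero_add]
  set T : Finset (Fin k → ZMod 2) := (insert 0 S)ᶜ with hT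
  have hTsum : ∑ a ∈ T, a = 0 := by
    have h1 := Finset.sum_add_sum_compl (insert 0 S) (fun a : Fin k → ZMod 2 => a)
    rw [sum_univ_vec (by omega), Finset.sum_insert hzero, hsum, add_zero, zero_add] at h1
    exact h1
  have hTcard : T.card = 2 ^ k - (w.length + 1) := by
    rw [hT, Finset.card_compl, Finset.card_insert_of_notMem hzero, hcard]
    simp [ZMod.card]
  have h8 : 8 ≤ 2 ^ k := by
    calc 8 = 2 ^ 3 := by norm_num
      _ ≤ 2 ^ k := Nat.pow_le_pow_right (by norm_num) hk
  have h0T : (0 : Fin k → ZMod 2) ∉ T := by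
    simp [hT]
  constructor
  · intro hlen
    have : T.card = 1 := by omega
    obtain ⟨a, ha⟩ := Finset.card_eq_one.1 this
    rw [ha, Finset.sum_singleton] at hTsum
    rw [ha, hTsum] at h0T
    simp at h0T
  · intro hlen
    have : T.card = 2 := by omega
    obtain ⟨a, b, hab, ha⟩ := Finset.card_eq_two.1 this
    rw [ha, Finset.sum_pair hab] at hTsum
    apply hab
    calc a = a + (b + b) := by rw [add_self_vec, add_zero]
      _ = (a + b) + b := by abel
      _ = b := by rw [hTsum, zero_add]

end xor

lemma construct (n k : ℕ) (hk : 3 ≤ k) (hn : n ≤ 2 ^ k) :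
    ∃ c : Sym2 (Fin n) → ℕ, IsProperEdgeColouring n c ∧ (coloursUsed n c).card ≤ 2 ^ k - 1 ∧
      ∀ (v : Fin n) (w : (⊤ : SimpleGraph (Fin n)).Walk v v), (w.edges.map c).Nodup →
        w.length ≠ 2 ^ k - 2 ∧ w.length ≠ 2 ^ k - 3 := by
  classical
  obtain ⟨φ⟩ : Nonempty (Fin n ↪ (Fin k → ZMod 2)) :=
    Function.Embedding.nonempty_of_card_le (by simpa [ZMod.card] using hn)
  let code : (Fin k → ZMod 2) → ℕ := fun a => (Fintype.equivFin (Fin k → ZMod 2) a).val
  have hcode : Function.Injective code :=
    Fin.val_injective.comp (Fintype.equivFin (Fin k → ZMod 2)).injective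
  refine ⟨fun e => code (g φ e), ?_, ?_, ?_⟩
  · intro x y z _ _ hyz h
    have h1 := hcode h
    rw [g_mk, g_mk] at h1
    exact hyz (φ.injective (add_left_cancel h1))
  · have hsub : coloursUsed n (fun e => code (g φ e)) ⊆
        (Finset.univ.erase (0 : Fin k → ZMod 2)).image code := by
      intro a ha
      rw [mem_used] at ha
      obtain ⟨x, y, hxy, rfl⟩ := ha
      apply Finset.mem_image_of_mem
      rw [Finset.mem_erase]
      refine ⟨?_, Finset.mem_univ _⟩
      intro h0
      rw [g_mk] at h0
      apply hxy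
      apply φ.injective
      calc φ x = φ x + (φ y + φ y) := by rw [add_self_vec, add_zero]
        _ = (φ x + φ y) + φ y := by abel
        _ = φ y := by rw [h0, zero_add]
    calc _ ≤ ((Finset.univ.erase (0 : Fin k → ZMod 2)).image code).card := Finset.card_le_card hsub
      _ ≤ (Finset.univ.erase (0 : Fin k → ZMod 2)).card := Finset.card_image_le
      _ = 2 ^ k - 1 := by
        rw [Finset.card_erase_of_mem (Finset.mem_univ _)]
        simp [ZMod.card]
  · intro v w hnd
    apply no_rainbow φ hk φ.injective v w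
    have : w.edges.map (fun e => code (g φ e)) = (w.edges.map (g φ)).map code := by
      rw [List.map_map]; rfl
    rw [this] at hnd
    exact List.Nodup.of_map code hnd

/-- For every `k ≥ 3` there are an optimal edge-colouring of `K_n`, `n = 2^k`, with no rainbow
cycle of length `n - 2`, and an optimal edge-colouring of `K_n`, `n = 2^k - 1`, with no rainbow
cycle of length `n - 2` and none of length `n - 1`. -/
theorem result (k : ℕ) (hk : 3 ≤ k) :
    (∃ c : Sym2 (Fin (2 ^ k)) → ℕ, IsOptimal (2 ^ k) c ∧
      ∀ (v : Fin (2 ^ k)) (w : (⊤ : SimpleGraph (Fin (2 ^ k))).Walk v v), w.IsCycle →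
        w.length = 2 ^ k - 2 → ¬ (w.edges.map c).Nodup) ∧
    (∃ c : Sym2 (Fin (2 ^ k - 1)) → ℕ, IsOptimal (2 ^ k - 1) c ∧
      ∀ (v : Fin (2 ^ k - 1)) (w : (⊤ : SimpleGraph (Fin (2 ^ k - 1))).Walk v v), w.IsCycle →
        (w.length = (2 ^ k - 1) - 2 ∨ w.length = (2 ^ k - 1) - 1) →
          ¬ (w.edges.map c).Nodup) := by
  have h8 : 8 ≤ 2 ^ k := by
    calc 8 = 2 ^ 3 := by norm_num
      _ ≤ 2 ^ k := Nat.pow_le_pow_right (by norm_num) hk
  constructor
  · obtain ⟨c, h1, h2, h3⟩ := construct (2 ^ k) k hk le_rfl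
    refine ⟨c, ⟨h1, fun c' hc' => ?_⟩, ?_⟩
    · exact h2.trans (lower_even (2 ^ k) (by omega) c' hc')
    · intro v w _ hlen hnd
      exact (h3 v w hnd).1 hlen
  · obtain ⟨c, h1, h2, h3⟩ := construct (2 ^ k - 1) k hk (by omega)
    refine ⟨c, ⟨h1, fun c' hc' => ?_⟩, ?_⟩
    · refine h2.trans (lower_odd (2 ^ k - 1) (by omega) ?_ c' hc')
      have he : Even (2 ^ k) := by
        rw [Nat.even_pow]
        exact ⟨even_two, by omega⟩
      rcases he with ⟨m, hm⟩
      exact ⟨m - 1, by omega⟩
    · intro v w _ hlen hnd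
      have := h3 v w hnd
      omega

end Pool.Agent.Results.MP_4bc86c_co.NoRainbow
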